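import Pool.Agent.H6T.OneP

/-! SUPPLY with variable links: a vertex `p` of a longest cycle at `g` vertices before a hub
`w = R[g]`; every other hub `y` of a linked set `S` brings `D y` private non-neighbours of `p`. -/

namespace Pool.Agent.H4C

open List Pool.Agent.TF82 Pool.Agent.TFC Pool.Agent.H6T

universe u

set_option linter.unusedSectionVars false
set_option linter.unusedVariables false

variable {V : Type u} [DecidableEq V]

theorem lk_symm {G : SimpleGraph V} {D : List V} {L : ℕ} {s t : V} (h : Lk G D L s t) :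
    Lk G D L t s := by
  obtain ⟨Q, x1, x2, hQ, hn, hd, hL, h1, h2⟩ := h
  exact ⟨Q.reverse, x2, x1, hQ.rev, List.nodup_reverse.2 hn,
    fun z hz => hd z (List.mem_reverse.1 hz), by rw [List.length_reverse]; exact hL, h2, h1⟩

theorem lk_mono {G : SimpleGraph V} {D : List V} {L L' : ℕ} {s t : V} (h : Lk G D L s t)
    (hL : L' ≤ L) : Lk G D L' s t := by
  obtain ⟨Q, x1, x2, hQ, hn, hd, hL', h1, h2⟩ := h
  exact ⟨Q, x1, x2, hQ, hn, hd, hL.trans hL', h1, h2⟩

/-- **one vertex, variable links** -/
theorem one_p_var {G : SimpleGraph V} [DecidableRel G.Adj] {R : List V} {p : V} {S : Finset V}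
    {g : ℕ} (D : V → ℕ) (hc : CycL G (p :: R))
    (hmax : ∀ c', CycL G c' → c'.length ≤ (p :: R).length) (hg : g < R.length)
    (hw : R[g] ∈ S) (hSR : ∀ s ∈ S, s ∈ R)
    (h1 : ∀ y ∈ S, y ≠ R[g] → Lk G (p :: R) (D y + g) R[g] y)
    (h2 : ∀ s ∈ S, ∀ t ∈ S, s ≠ t → Lk G (p :: R) (D t) s t) :
    cnt G p (p :: R) + ∑ y ∈ S.erase R[g], D y + 1 ≤ (p :: R).length := by
  classical
  have hnR : R.Nodup := (List.nodup_cons.1 hc.1).2
  have hcp : cnt G p (p :: R) = cnt G p R := by
    unfold cnt
    rw [List.filter_cons]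
    simp
  rw [hcp, List.length_cons, cnt_pos]
  set N := (Finset.range R.length).filter (fun i => ∃ h : i < R.length, G.Adj p R[i]) with hN
  set T := (S.erase R[g]).filter (fun y => 1 ≤ D y) with hT
  have hTm : ∀ y ∈ T, y ∈ S ∧ y ≠ R[g] ∧ 1 ≤ D y := by
    intro y hy
    rw [hT, Finset.mem_filter, Finset.mem_erase] at hy
    exact ⟨hy.1.2, hy.1.1, hy.2⟩
  have hsum : ∑ y ∈ S.erase R[g], D y = ∑ y ∈ T, D y := by
    rw [hT, Finset.sum_filter]
    refine Finset.sum_congr rfl (fun y _ => ?_)
    split_ifs with h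
    · rfl
    · omega
  have hpl : ∀ y ∈ S, R.idxOf y < R.length := fun y hy => List.idxOf_lt_length_of_mem (hSR y hy)
  have hpe : ∀ y (hy : y ∈ S), R[R.idxOf y]'(hpl y hy) = y := fun y hy => List.getElem_idxOf _
  have hfar2 : ∀ s ∈ S, ∀ t ∈ T, s ≠ t → R.idxOf s < R.idxOf t → R.idxOf s + D t < R.idxOf t := by
    intro s hs t ht hst hlt
    have htS := (hTm t ht).1
    refine hubs_far (hTm t ht).2.2 hc hmax hlt (hpl t htS) ?_
    rw [hpe s hs, hpe t htS]
    exact h2 s hs t htS hst
  have hfar1 : ∀ y ∈ T, g + (D y + g) < R.idxOf y := by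
    intro y hy
    obtain ⟨hyS, hyw, hyD⟩ := hTm y hy
    have hne : R.idxOf y ≠ g := by
      intro he
      apply hyw
      have := hpe y hyS
      simp only [he] at this
      exact this.symm
    rcases Nat.lt_or_gt_of_ne hne with hlt | hlt
    · have := hubs_far (L := D y + g) (by omega) hc hmax hlt hg
        (by rw [hpe y hyS]; exact lk_symm (h1 y hyS hyw))
      omega
    · exact hubs_far (L := D y + g) (by omega) hc hmax hlt (hpl y hyS)
        (by rw [hpe y hyS]; exact h1 y hyS hyw)
  set Bl : V → Finset ℕ := fun y => (Finset.range (D y)).image (fun x => R.idxOf y - 1 - x)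
    with hBl
  have hBlm : ∀ y ∈ T, ∀ i, i ∈ Bl y → i < R.idxOf y ∧ R.idxOf y ≤ i + D y ∧ g ≤ i := by
    intro y hy i hi
    rw [hBl] at hi
    simp only [Finset.mem_image, Finset.mem_range] at hi
    obtain ⟨x, hx, rfl⟩ := hi
    have := hfar1 y hy
    omega
  have hBlc : ∀ y ∈ T, (Bl y).card = D y := by
    intro y hy
    rw [hBl]
    simp only
    rw [Finset.card_image_of_injOn, Finset.card_range]
    intro a ha b hb hab
    rw [Finset.mem_coe, Finset.mem_range] at ha hb
    simp only at hab
    have := hfar1 y hy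
    omega
  have hBld : ∀ y ∈ T, ∀ z ∈ T, y ≠ z → Disjoint (Bl y) (Bl z) := by
    intro y hy z hz hyz
    rw [Finset.disjoint_left]
    intro i hi hi'
    have a1 := hBlm y hy i hi
    have a2 := hBlm z hz i hi'
    have hne : R.idxOf y ≠ R.idxOf z := by
      intro he
      apply hyz
      have e1 := hpe y (hTm y hy).1
      have e2 := hpe z (hTm z hz).1
      simp only [he] at e1
      rw [← e1, e2]
    rcases Nat.lt_or_gt_of_ne hne with hlt | hlt
    · have := hfar2 y (hTm y hy).1 z hz hyz hlt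
      omega
    · have := hfar2 z (hTm z hz).1 y hy (Ne.symm hyz) hlt
      omega
  have hdis : Disjoint N (T.biUnion Bl) := by
    rw [Finset.disjoint_left]
    intro i hi hi2
    obtain ⟨y, hy, hiy⟩ := Finset.mem_biUnion.1 hi2
    have a1 := hBlm y hy i hiy
    rw [hN, Finset.mem_filter] at hi
    obtain ⟨-, hi1, hi3⟩ := hi
    obtain ⟨hyS, hyw, hyD⟩ := hTm y hy
    have := block_before (L := D y + g) (by omega) hc hmax a1.2.2 a1.1 (hpl y hyS)
      (by rw [hpe y hyS]; exact h1 y hyS hyw) hi3
    omega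
  have hsub : N ∪ T.biUnion Bl ⊆ Finset.range R.length := by
    intro i hi
    rcases Finset.mem_union.1 hi with hi | hi
    · rw [hN, Finset.mem_filter] at hi
      exact hi.1
    · obtain ⟨y, hy, hiy⟩ := Finset.mem_biUnion.1 hi
      have := hBlm y hy i hiy
      have := hpl y (hTm y hy).1
      rw [Finset.mem_range]
      omega
  have hcard := Finset.card_le_card hsub
  rw [Finset.card_union_of_disjoint hdis, Finset.card_biUnion hBld, Finset.card_range,
    Finset.sum_congr rfl hBlc, ← hsum] at hcard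
  omega

end Pool.Agent.H4C
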