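import Pool.Agent.H27A.Arc
import Pool.Agent.EG31.Leaf
import Pool.Agent.H4C.Supply

/-! Two hubs of a piece `Z` outside a longest cycle that are joined by a long link, and the
resulting lower bound for the length of the cycle. -/

namespace Pool.Agent.H4C

open List Pool.Agent.TF82 Pool.Agent.TFC Pool.Agent.TFB Pool.Agent.EG31 Pool.Agent.H6T
  Pool.Agent.H27A

universe u

set_option linter.unusedSectionVars false
set_option linter.unusedVariables false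

variable {V : Type u} [DecidableEq V]

/-- an edge that leaves a part of a connected set -/
theorem exit_edge {G : SimpleGraph V} {S T : Finset V} (hS : Conn1 G S) (hT : T ⊆ S) {a b : V}
    (ha : a ∈ T) (hb : b ∈ S) (hbT : b ∉ T) : ∃ w ∈ T, ∃ z ∈ S, z ∉ T ∧ G.Adj w z := by
  by_contra hno
  push Not at hno
  refine hbT (closed_reach (S := S) (T := T) ?_ (hS a (hT ha) b hb) ha)
  intro w hw z hz hwz
  by_contra hzT
  exact hno w hw z hz hzT hwz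

/-- a long link between two different vertices of the cycle -/
theorem two_hubs {G : SimpleGraph V} {U Z : Finset V} {c : List V} {x : V} {L : ℕ}
    (h2 : Conn2 G U) (hc : CycL G c) (hcU : ∀ z ∈ c, z ∈ U) (hZU : Z ⊆ U) (hZc : ∀ z ∈ Z, z ∉ c)
    (hcl : ∀ z ∈ Z, ∀ w ∈ U, G.Adj z w → w ∈ Z ∨ w ∈ c) (hx : x ∈ Z)
    (hxc : ∃ y ∈ c, G.Adj x y) (hZ2 : ∃ x' ∈ Z, x' ≠ x)
    (hL : ∀ x' ∈ Z, x' ≠ x →
      ∃ Q : List V, Seg G Q x x' ∧ Q.Nodup ∧ (∀ z ∈ Q, z ∈ Z) ∧ L ≤ Q.length) :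
    ∃ y ∈ c, ∃ y' ∈ c, y ≠ y' ∧ ∃ (Q : List V) (x1 x2 : V), Seg G Q x1 x2 ∧ Q.Nodup ∧
      (∀ z ∈ Q, z ∈ Z) ∧ L ≤ Q.length ∧ G.Adj y x1 ∧ G.Adj y' x2 := by
  obtain ⟨y, hy, hxy⟩ := hxc
  obtain ⟨x0, hx0, hx0x⟩ := hZ2
  have hyx : y ≠ x := fun h => hZc x hx (h ▸ hy)
  -- an edge from `Z - x` to the cycle
  obtain ⟨w, hw, z, hz, hzT, hwz⟩ := exit_edge (h2 x (hZU hx)) (T := Z.erase x)
    (fun v hv => Finset.mem_erase.2 ⟨(Finset.mem_erase.1 hv).1, hZU (Finset.mem_erase.1 hv).2⟩)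
    (Finset.mem_erase.2 ⟨hx0x, hx0⟩) (Finset.mem_erase.2 ⟨hyx, hcU y hy⟩)
    (fun h => hZc y (Finset.mem_erase.1 h).2 hy)
  rw [Finset.mem_erase] at hw hz
  have hzZ : z ∉ Z := fun h => hzT (Finset.mem_erase.2 ⟨hz.1, h⟩)
  have hzc : z ∈ c := (hcl w hw.2 z hz.2 hwz).resolve_left hzZ
  obtain ⟨Q, hQ, hQn, hQZ, hQL⟩ := hL w hw.2 hw.1
  by_cases hzy : z = y
  · subst hzy
    -- an edge from `Z` to `c - y`
    obtain ⟨b, hb, hby⟩ : ∃ b ∈ c, b ≠ z := by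
      by_contra hno
      push Not at hno
      have h3 : c.toFinset ⊆ {z} := by
        intro v hv
        rw [Finset.mem_singleton]
        exact hno v (List.mem_toFinset.1 hv)
      have h4 := Finset.card_le_card h3
      rw [List.toFinset_card_of_nodup hc.1, Finset.card_singleton] at h4
      have := hc.2.1
      omega
    obtain ⟨w', hw', z', hz', hzT', hwz'⟩ := exit_edge (h2 z (hcU z hzc)) (T := Z)
      (fun v hv => Finset.mem_erase.2 ⟨fun h => hzZ (h ▸ hv), hZU hv⟩) hx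
      (Finset.mem_erase.2 ⟨hby, hcU b hb⟩) (fun h => hZc b h hb)
    rw [Finset.mem_erase] at hz'
    have hzc' : z' ∈ c := (hcl w' hw' z' hz'.2 hwz').resolve_left hzT'
    by_cases hwx : w' = x
    · subst hwx
      exact ⟨z', hzc', z, hzc, hz'.1, Q, w', w, hQ, hQn, hQZ, hQL, hwz'.symm, hwz.symm⟩
    · obtain ⟨Q', hQ', hQn', hQZ', hQL'⟩ := hL w' hw' hwx
      exact ⟨z, hzc, z', hzc', fun h => hz'.1 h.symm, Q', x, w', hQ', hQn', hQZ', hQL', hxy.symm,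
        hwz'.symm⟩
  · exact ⟨y, hy, z, hzc, fun h => hzy h.symm, Q, x, w, hQ, hQn, hQZ, hQL, hxy.symm, hwz.symm⟩

/-- a longest cycle with a link of `L` vertices between two of its vertices -/
theorem cyc_ge {G : SimpleGraph V} {U : Finset V} {c : List V} {L : ℕ} (hL : 1 ≤ L)
    (hc : CycL G c) (hcU : ∀ z ∈ c, z ∈ U)
    (hmax : ∀ c', CycL G c' → (∀ z ∈ c', z ∈ U) → c'.length ≤ c.length) {y y' x1 x2 : V}
    (hy : y ∈ c) (hy' : y' ∈ c) (hne : y ≠ y') {Q : List V} (hQ : Seg G Q x1 x2) (hQn : Q.Nodup)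
    (hQc : ∀ z ∈ Q, z ∉ c) (hQU : ∀ z ∈ Q, z ∈ U) (hQL : L ≤ Q.length) (h1 : G.Adj y x1)
    (h2 : G.Adj y' x2) : 2 * L + 2 ≤ c.length := by
  obtain ⟨D, hD, hDn, hDc, hDl⟩ := arcs hc hy hy' hne
  have hP : Seg G (y :: (D ++ [y'])) y y' := ⟨hD, rfl, by
    rw [← List.cons_append, List.getLast?_append]; simp⟩
  have hPc : ∀ z ∈ y :: (D ++ [y']), z ∈ c := by
    intro z hz
    simp only [List.mem_cons, List.mem_append, List.not_mem_nil, or_false] at hz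
    rcases hz with rfl | hz | rfl
    · exact hy
    · exact hDc z hz
    · exact hy'
  have hcyc : CycL G ((y :: (D ++ [y'])) ++ Q.reverse) := by
    refine close_seg hP ?_ ?_ ?_
    · have h3 : Seg G [y'] y' y' := ⟨List.isChain_singleton _, rfl, rfl⟩
      have h4 : Seg G [y] y y := ⟨List.isChain_singleton _, rfl, rfl⟩
      have h5 := (h3.append hQ.rev h2).append h4 h1.symm
      have h6 := h5.ch
      simpa using h6
    · rw [List.nodup_append]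
      refine ⟨hDn, List.nodup_reverse.2 hQn, ?_⟩
      rintro z hz z' hz' rfl
      exact hQc z (List.mem_reverse.1 hz') (hPc z hz)
    · simp only [List.length_cons, List.length_append, List.length_reverse, List.length_nil]
      omega
  have h3 := hmax _ hcyc (by
    intro z hz
    rcases List.mem_append.1 hz with hz | hz
    · exact hcU z (hPc z hz)
    · exact hQU z (List.mem_reverse.1 hz))
  simp only [List.length_cons, List.length_append, List.length_reverse, List.length_nil] at h3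
  omega

/-- (1) + (2): the bound for the length of the longest cycle -/
theorem cyc_ge_of_piece {G : SimpleGraph V} {U Z : Finset V} {c : List V} {x : V} {L : ℕ}
    (hL1 : 1 ≤ L) (h2 : Conn2 G U) (hc : CycL G c) (hcU : ∀ z ∈ c, z ∈ U)
    (hmax : ∀ c', CycL G c' → (∀ z ∈ c', z ∈ U) → c'.length ≤ c.length)
    (hZU : Z ⊆ U) (hZc : ∀ z ∈ Z, z ∉ c)
    (hcl : ∀ z ∈ Z, ∀ w ∈ U, G.Adj z w → w ∈ Z ∨ w ∈ c) (hx : x ∈ Z)
    (hxc : ∃ y ∈ c, G.Adj x y) (hZ2 : ∃ x' ∈ Z, x' ≠ x)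
    (hL : ∀ x' ∈ Z, x' ≠ x →
      ∃ Q : List V, Seg G Q x x' ∧ Q.Nodup ∧ (∀ z ∈ Q, z ∈ Z) ∧ L ≤ Q.length) :
    2 * L + 2 ≤ c.length := by
  obtain ⟨y, hy, y', hy', hne, Q, x1, x2, hQ, hQn, hQZ, hQL, h3, h4⟩ :=
    two_hubs h2 hc hcU hZU hZc hcl hx hxc hZ2 hL
  exact cyc_ge hL1 hc hcU hmax hy hy' hne hQ hQn (fun z hz => hZc z (hQZ z hz))
    (fun z hz => hZU (hQZ z hz)) hQL h3 h4

/-- (3) the inner part of a leaf block of `Z` sees the cycle -/
theorem leaf_hub {G : SimpleGraph V} {U Z W : Finset V} {b : V} {c : List V} (h2 : Conn2 G U)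
    (hc : CycL G c) (hcU : ∀ z ∈ c, z ∈ U) (hZU : Z ⊆ U) (hZc : ∀ z ∈ Z, z ∉ c)
    (hcl : ∀ z ∈ Z, ∀ w ∈ U, G.Adj z w → w ∈ Z ∨ w ∈ c) (hl : Leaf G Z b W) :
    ∃ x ∈ W, ∃ y ∈ c, G.Adj x y := by
  obtain ⟨w0, hw0⟩ := hl.ne
  obtain ⟨y0, hy0⟩ : ∃ y0, y0 ∈ c := by
    refine List.exists_mem_of_ne_nil _ ?_
    rintro rfl
    have := hc.2.1
    simp at this
  obtain ⟨w, hw, z, hz, hzW, hwz⟩ := exit_edge (h2 b (hZU hl.mem)) (T := W)
    (fun v hv => Finset.mem_erase.2 ⟨fun h => hl.nb (h ▸ hv), hZU (hl.subS hv)⟩) hw0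
    (Finset.mem_erase.2 ⟨fun h => hZc b hl.mem (h ▸ hy0), hcU y0 hy0⟩)
    (fun h => hZc y0 (hl.subS h) hy0)
  rw [Finset.mem_erase] at hz
  rcases hcl w (hl.subS hw) z hz.2 hwz with h | h
  · rcases hl.cl w hw z h hwz with h' | h'
    · exact absurd h' hzW
    · exact absurd h' hz.1
  · exact ⟨w, hw, z, h, hwz⟩

/-- long paths between any two vertices of a leaf block give long paths from its inner part to
every vertex of `Z` -/
theorem leaf_any {G : SimpleGraph V} {Z W : Finset V} {b : V} (hl : Leaf G Z b W)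
    (hZ : Conn1 G Z) {L : ℕ} {x x' : V} (hx : x ∈ W) (hx' : x' ∈ Z) (hne : x' ≠ x)
    (hB : ∀ s ∈ insert b W, ∀ t ∈ insert b W, s ≠ t →
      ∃ Q : List V, Seg G Q s t ∧ Q.Nodup ∧ (∀ z ∈ Q, z ∈ insert b W) ∧ L ≤ Q.length) :
    ∃ Q : List V, Seg G Q x x' ∧ Q.Nodup ∧ (∀ z ∈ Q, z ∈ Z) ∧ L ≤ Q.length := by
  classical
  have hsub : ∀ z ∈ insert b W, z ∈ Z := by
    intro z hz
    rcases Finset.mem_insert.1 hz with rfl | hz
    · exact hl.mem
    · exact hl.subS hz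
  by_cases hxB : x' ∈ insert b W
  · obtain ⟨Q, h1, h2, h3, h4⟩ := hB x (Finset.mem_insert_of_mem hx) x' hxB (Ne.symm hne)
    exact ⟨Q, h1, h2, fun z hz => hsub z (h3 z hz), h4⟩
  have hxW : x' ∉ W := fun h => hxB (Finset.mem_insert_of_mem h)
  have hvb : x ≠ b := fun e => hl.nb (e ▸ hx)
  obtain ⟨P, hP, hPnd, hPB, hPlen⟩ := hB x (Finset.mem_insert_of_mem hx) b
    (Finset.mem_insert_self _ _) hvb
  obtain ⟨R, hRnd, hRch, hRhd, hRlt, hRS⟩ := Reach.path (hl.reach hZ hx' hxW)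
    (Finset.mem_sdiff.2 ⟨hl.mem, hl.nb⟩)
  obtain ⟨P', rfl⟩ : ∃ P', P = P' ++ [b] := by
    have h5 := hP.lt
    rw [List.getLast?_eq_some_iff] at h5
    exact h5
  have hR0 : R ≠ [] := by
    intro e
    rw [e] at hRhd
    simp at hRhd
  have hPn := List.nodup_append.1 hPnd
  refine ⟨P' ++ R, ⟨?_, ?_, ?_⟩, ?_, ?_, ?_⟩
  · have h5 := hP.ch
    rw [List.isChain_append] at h5 ⊢
    refine ⟨h5.1, hRch, fun a ha c hc => h5.2.2 a ha c ?_⟩
    rw [hRhd] at hc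
    simpa using hc
  · have h5 := hP.hd
    cases P' with
    | nil =>
      simp only [List.nil_append, List.head?_cons, Option.some.injEq] at h5
      exact absurd h5.symm hvb
    | cons a P'' =>
      simpa using h5
  · rw [List.getLast?_append_of_ne_nil _ hR0]
    exact hRlt
  · rw [List.nodup_append]
    refine ⟨hPn.1, hRnd, fun a ha c hc e => ?_⟩
    subst e
    have h5 := hPB a (List.mem_append.2 (Or.inl ha))
    have h6 : a ≠ b := hPn.2.2 a ha b (by simp)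
    rcases Finset.mem_insert.1 h5 with h7 | h7
    · exact h6 h7
    · exact (Finset.mem_sdiff.1 (hRS a hc)).2 h7
  · intro z hz
    rcases List.mem_append.1 hz with hz | hz
    · exact hsub z (hPB z (List.mem_append.2 (Or.inl hz)))
    · exact (Finset.mem_sdiff.1 (hRS z hz)).1
  · have h5 : 1 ≤ R.length := by
      rcases Nat.eq_zero_or_pos R.length with h6 | h6
      · exact absurd (List.length_eq_zero_iff.1 h6) hR0
      · exact h6
    rw [List.length_append] at hPlen ⊢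
    simp only [List.length_cons, List.length_nil] at hPlen
    omega

/-- **the length of the longest cycle, leaf block form** -/
theorem cyc_ge_leaf {G : SimpleGraph V} {U Z W : Finset V} {b : V} {c : List V} {L : ℕ}
    (hL1 : 1 ≤ L) (h2 : Conn2 G U) (hc : CycL G c) (hcU : ∀ z ∈ c, z ∈ U)
    (hmax : ∀ c', CycL G c' → (∀ z ∈ c', z ∈ U) → c'.length ≤ c.length)
    (hZU : Z ⊆ U) (hZc : ∀ z ∈ Z, z ∉ c)
    (hcl : ∀ z ∈ Z, ∀ w ∈ U, G.Adj z w → w ∈ Z ∨ w ∈ c) (hZ : Conn1 G Z) (hl : Leaf G Z b W)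
    (hB : ∀ s ∈ insert b W, ∀ t ∈ insert b W, s ≠ t →
      ∃ Q : List V, Seg G Q s t ∧ Q.Nodup ∧ (∀ z ∈ Q, z ∈ insert b W) ∧ L ≤ Q.length) :
    2 * L + 2 ≤ c.length := by
  obtain ⟨x, hx, hxc⟩ := leaf_hub h2 hc hcU hZU hZc hcl hl
  exact cyc_ge_of_piece hL1 h2 hc hcU hmax hZU hZc hcl (hl.subS hx) hxc
    ⟨b, hl.mem, fun e => hl.nb (e ▸ hx)⟩
    (fun x' hx' hne => leaf_any hl hZ hx hx' hne hB)

/-- **the length of the longest cycle, 2-connected piece** -/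
theorem cyc_ge_conn2 {G : SimpleGraph V} {U Z : Finset V} {c : List V} {L : ℕ}
    (hL1 : 1 ≤ L) (h2 : Conn2 G U) (hU : Conn1 G U) (hc : CycL G c) (hcU : ∀ z ∈ c, z ∈ U)
    (hmax : ∀ c', CycL G c' → (∀ z ∈ c', z ∈ U) → c'.length ≤ c.length)
    (hZU : Z ⊆ U) (hZc : ∀ z ∈ Z, z ∉ c)
    (hcl : ∀ z ∈ Z, ∀ w ∈ U, G.Adj z w → w ∈ Z ∨ w ∈ c) (hZ2 : 2 ≤ Z.card)
    (hB : ∀ s ∈ Z, ∀ t ∈ Z, s ≠ t →
      ∃ Q : List V, Seg G Q s t ∧ Q.Nodup ∧ (∀ z ∈ Q, z ∈ Z) ∧ L ≤ Q.length) :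
    2 * L + 2 ≤ c.length := by
  obtain ⟨z0, hz0⟩ : Z.Nonempty := Finset.card_pos.1 (by omega)
  obtain ⟨y0, hy0⟩ : ∃ y0, y0 ∈ c := by
    refine List.exists_mem_of_ne_nil _ ?_
    rintro rfl
    have := hc.2.1
    simp at this
  obtain ⟨x, hx, y, hy, hyZ, hxy⟩ := exit_edge hU hZU hz0 (hcU y0 hy0) (fun h => hZc y0 h hy0)
  have hyc : y ∈ c := (hcl x hx y hy hxy).resolve_left hyZ
  obtain ⟨x', hx', hne⟩ : ∃ x' ∈ Z, x' ≠ x := by
    by_contra hno
    push Not at hno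
    have h3 : Z ⊆ {x} := fun v hv => Finset.mem_singleton.2 (hno v hv)
    have h4 := Finset.card_le_card h3
    rw [Finset.card_singleton] at h4
    omega
  exact cyc_ge_of_piece hL1 h2 hc hcU hmax hZU hZc hcl hx ⟨y, hyc, hxy⟩ ⟨x', hx', hne⟩
    (fun x' hx' hne => hB x hx x' hx' (Ne.symm hne))

end Pool.Agent.H4C
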